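import Mathlib
import Pool.Agent.Y77.SqFree

set_option autoImplicit false

/-!
# Generic ideals of the square-free algebra: the expected Hilbert series fails

For every infinite field `K` and every `n ∈ {7, 9, 11}` and every `n ≥ 13` the quotient of
`K[x_1, …, x_n] / (x_1 ^ 2, …, x_n ^ 2)` by two generic linear forms does not have the Hilbert
series `⟨(1 + t) ^ n (1 - t) ^ 2⟩`.
-/

namespace Pool.Agent.Results.MP_3acc10_al.LinearForms

open MvPolynomial

universe u

/-- The indices of the coefficient vectors of `r` forms of degrees `d_1, …, d_r` in the square-free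
algebra: pairs of `j` and a set `S` of `d_j` variables (that is, a square-free monomial). -/
abbrev Idx (n : ℕ) {r : ℕ} (d : Fin r → ℕ) : Type :=
  Σ j : Fin r, {S : Finset (Fin n) // S.card = d j}

/-- The form of degree `d_j` with the coefficients `c`. -/
noncomputable def form (K : Type u) [Field K] {n r : ℕ} {d : Fin r → ℕ} (c : Idx n d → K)
    (j : Fin r) : MvPolynomial (Fin n) K :=
  ∑ S : {S : Finset (Fin n) // S.card = d j}, C (c ⟨j, S⟩) * ∏ i ∈ S.1, X i

/-- The ideal `(x_1 ^ 2, …, x_n ^ 2, f_1, …, f_r)`, where `f_1, …, f_r` have the coefficients `c`;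
the quotient by it is the quotient of the square-free algebra by `(f_1, …, f_r)`. -/
noncomputable def idealOf (K : Type u) [Field K] {n r : ℕ} {d : Fin r → ℕ} (c : Idx n d → K) :
    Ideal (MvPolynomial (Fin n) K) :=
  Ideal.span (Set.range (fun i : Fin n => (X i : MvPolynomial (Fin n) K) ^ 2) ∪
    Set.range (form K c))

/-- The dimension of the component of degree `i` of `K[x_1, …, x_n] / I`. -/
noncomputable def hilbert {K : Type u} [Field K] {n : ℕ} (I : Ideal (MvPolynomial (Fin n) K))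
    (i : ℕ) : ℕ :=
  Module.finrank K ((homogeneousSubmodule (Fin n) K i).map (Ideal.Quotient.mkₐ K I).toLinearMap)

/-- The coefficients of the truncation of the series `p`. -/
noncomputable def trunc (p : Polynomial ℤ) (i : ℕ) : ℤ :=
  open Classical in if ∀ l ≤ i, 0 < p.coeff l then p.coeff i else 0

/-- The conjectured formula for `K`, `n` and `d`: for the coefficient vectors `c` in a nonempty
Zariski-open set, the Hilbert series of the quotient is `⟨(1 + t) ^ n ∏_j (1 - t ^ d_j)⟩`. -/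
def Formula (K : Type u) [Field K] (n : ℕ) {r : ℕ} (d : Fin r → ℕ) : Prop :=
  ∃ P : MvPolynomial (Idx n d) K, P ≠ 0 ∧ ∀ c : Idx n d → K, eval c P ≠ 0 → ∀ i : ℕ,
    (hilbert (idealOf K c) i : ℤ) =
      trunc ((1 + Polynomial.X) ^ n * ∏ j, (1 - Polynomial.X ^ d j)) i

/-- the coefficient in degree `k` of the expected series -/
theorem coeff_expected (n m : ℕ) :
    (((1 + Polynomial.X) ^ n * ∏ j, (1 - Polynomial.X ^ (![1, 1] : Fin 2 → ℕ) j) :
      Polynomial ℤ)).coeff (m + 2) =
      (n.choose (m + 2) : ℤ) - 2 * (n.choose (m + 1) : ℤ) + (n.choose m : ℤ) := by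
  rw [Fin.prod_univ_two]
  simp only [Matrix.cons_val_zero, Matrix.cons_val_one, pow_one]
  have h : ((1 + Polynomial.X) ^ n * ((1 - Polynomial.X) * (1 - Polynomial.X)) : Polynomial ℤ) =
      (1 + Polynomial.X) ^ n - 2 * ((1 + Polynomial.X) ^ n * Polynomial.X) +
        (1 + Polynomial.X) ^ n * Polynomial.X ^ 2 := by ring
  rw [h, Polynomial.coeff_add, Polynomial.coeff_sub, Polynomial.coeff_mul_X_pow,
    show (2 : Polynomial ℤ) = Polynomial.C 2 from rfl, Polynomial.coeff_C_mul,
    show m + 2 = (m + 1) + 1 from rfl, Polynomial.coeff_mul_X]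
  simp only [Polynomial.coeff_one_add_X_pow]

theorem choose_ineq (n m : ℕ) (h : (n = 2 * m + 5 ∧ 1 ≤ m) ∨ (n = 2 * m + 6 ∧ 4 ≤ m)) :
    (n.choose (m + 2) : ℤ) - 2 * (n.choose (m + 1) : ℤ) + (n.choose m : ℤ) ≤ 0 := by
  have h1 := Nat.choose_succ_right_eq n m
  have h2 := Nat.choose_succ_right_eq n (m + 1)
  have hb : 0 ≤ (n.choose (m + 1) : ℤ) := Int.natCast_nonneg _
  rcases h with ⟨rfl, hm⟩ | ⟨rfl, hm⟩
  · rw [show 2 * m + 5 - m = m + 5 by omega] at h1
    rw [show 2 * m + 5 - (m + 1) = m + 4 by omega] at h2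
    have e1 : ((2 * m + 5).choose (m + 1) : ℤ) * (m + 1) = ((2 * m + 5).choose m : ℤ) * (m + 5) := by
      exact_mod_cast h1
    have e2 : ((2 * m + 5).choose (m + 2) : ℤ) * (m + 2) =
        ((2 * m + 5).choose (m + 1) : ℤ) * (m + 4) := by exact_mod_cast h2
    set a : ℤ := ((2 * m + 5).choose m : ℤ)
    set b : ℤ := ((2 * m + 5).choose (m + 1) : ℤ)
    set c : ℤ := ((2 * m + 5).choose (m + 2) : ℤ)
    have hm' : (1 : ℤ) ≤ m := by exact_mod_cast hm
    have e3 : (c - 2 * b + a) * ((m + 2) * (m + 5)) = b * (2 - 2 * m) := by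
      linear_combination (m + 5 : ℤ) * e2 - (m + 2 : ℤ) * e1
    have hpos : (0 : ℤ) < (m + 2) * (m + 5) := by positivity
    by_contra hcon
    push Not at hcon
    have : 0 < (c - 2 * b + a) * ((m + 2) * (m + 5)) := mul_pos hcon hpos
    rw [e3] at this
    nlinarith
  · rw [show 2 * m + 6 - m = m + 6 by omega] at h1
    rw [show 2 * m + 6 - (m + 1) = m + 5 by omega] at h2
    have e1 : ((2 * m + 6).choose (m + 1) : ℤ) * (m + 1) = ((2 * m + 6).choose m : ℤ) * (m + 6) := by
      exact_mod_cast h1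
    have e2 : ((2 * m + 6).choose (m + 2) : ℤ) * (m + 2) =
        ((2 * m + 6).choose (m + 1) : ℤ) * (m + 5) := by exact_mod_cast h2
    set a : ℤ := ((2 * m + 6).choose m : ℤ)
    set b : ℤ := ((2 * m + 6).choose (m + 1) : ℤ)
    set c : ℤ := ((2 * m + 6).choose (m + 2) : ℤ)
    have hm' : (4 : ℤ) ≤ m := by exact_mod_cast hm
    have e3 : (c - 2 * b + a) * ((m + 2) * (m + 6)) = b * (8 - 2 * m) := by
      linear_combination (m + 6 : ℤ) * e2 - (m + 2 : ℤ) * e1
    have hpos : (0 : ℤ) < (m + 2) * (m + 6) := by positivity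
    by_contra hcon
    push Not at hcon
    have : 0 < (c - 2 * b + a) * ((m + 2) * (m + 6)) := mul_pos hcon hpos
    rw [e3] at this
    nlinarith

/-- the index of the coefficient of `x_i` in `f_j` -/
def ix (n : ℕ) (j : Fin 2) (i : Fin n) : Idx n (![1, 1] : Fin 2 → ℕ) :=
  ⟨j, ⟨{i}, by fin_cases j <;> simp⟩⟩

theorem ix_ne {n : ℕ} {i i' : Fin n} {j j' : Fin 2} (h : ¬ (j = j' ∧ i = i')) :
    ix n j i ≠ ix n j' i' := by
  intro h1
  unfold ix at h1
  simp only [Sigma.mk.injEq] at h1
  obtain ⟨rfl, h2⟩ := h1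
  simp at h2
  exact h ⟨rfl, h2⟩

theorem form_eq (K : Type u) [Field K] {n : ℕ} (c : Idx n (![1, 1] : Fin 2 → ℕ) → K) (j : Fin 2) :
    form K c j = ∑ i, C (c (ix n j i)) * X i := by
  unfold form
  symm
  have hcard : ∀ i : Fin n, ({i} : Finset (Fin n)).card = (![1, 1] : Fin 2 → ℕ) j := by
    intro i
    fin_cases j <;> simp
  have hone : (![1, 1] : Fin 2 → ℕ) j = 1 := by fin_cases j <;> rfl
  refine Fintype.sum_bijective (fun i : Fin n => (⟨{i}, hcard i⟩ :
      {S : Finset (Fin n) // S.card = (![1, 1] : Fin 2 → ℕ) j})) ⟨?_, ?_⟩ _ _ ?_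
  · intro i i' h
    exact Finset.singleton_injective (congrArg Subtype.val h)
  · rintro ⟨S, hS⟩
    rw [hone] at hS
    obtain ⟨i, rfl⟩ := Finset.card_eq_one.mp hS
    exact ⟨i, rfl⟩
  · intro i
    rw [Finset.prod_singleton]
    rfl

/-- The expected Hilbert series fails for two generic linear forms. -/
theorem result (K : Type u) [Field K] [Infinite K] (n : ℕ)
    (hn : n = 7 ∨ n = 9 ∨ n = 11 ∨ 13 ≤ n) : ¬ Formula K n (![1, 1] : Fin 2 → ℕ) := by
  classical
  rintro ⟨P, hP0, hP⟩
  obtain ⟨m, hm⟩ : ∃ m, (n = 2 * m + 5 ∧ 1 ≤ m) ∨ (n = 2 * m + 6 ∧ 4 ≤ m) := by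
    rcases Nat.even_or_odd' n with ⟨t, rfl | rfl⟩
    · exact ⟨t - 3, by omega⟩
    · exact ⟨t - 2, by omega⟩
  have hle : 2 * (m + 2) + 1 ≤ n := by omega
  -- the polynomial whose nonvanishing means that the points are in general position
  let Q : MvPolynomial (Idx n (![1, 1] : Fin 2 → ℕ)) K :=
    (∏ i : Fin n, X (ix n 0 i)) * ∏ i : Fin n, ∏ j ∈ Finset.univ.erase i,
      (X (ix n 0 i) * X (ix n 1 j) - X (ix n 0 j) * X (ix n 1 i))
  have hQ0 : Q ≠ 0 := by
    intro hQ
    obtain ⟨t, ht⟩ : ∃ t : Fin n → K, Function.Injective t :=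
      ⟨fun i => (Infinite.natEmbedding K) i.val, fun i j h => Fin.ext
        ((Infinite.natEmbedding K).injective h)⟩
    let c0 : Idx n (![1, 1] : Fin 2 → ℕ) → K := fun p =>
      if p.1 = 0 then 1 else ∑ i ∈ p.2.1, t i
    have h1 : eval c0 Q = 0 := by rw [hQ, map_zero]
    have h0 : ∀ i, c0 (ix n 0 i) = 1 := fun i => by simp [c0, ix]
    have h0' : ∀ i, c0 (ix n 1 i) = t i := fun i => by simp [c0, ix]
    simp only [Q, map_mul, map_prod, map_sub, eval_X, h0, h0', one_mul, Finset.prod_const_one] at h1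
    rw [Finset.prod_eq_zero_iff] at h1
    obtain ⟨i, _, h2⟩ := h1
    rw [Finset.prod_eq_zero_iff] at h2
    obtain ⟨j, hj, h3⟩ := h2
    exact (Finset.mem_erase.mp hj).1 (ht (sub_eq_zero.mp h3))
  obtain ⟨c, hc⟩ : ∃ c, eval c (P * Q) ≠ 0 := by
    by_contra hcon
    push Not at hcon
    exact mul_ne_zero hP0 hQ0 (MvPolynomial.funext fun c => by rw [hcon, map_zero])
  rw [map_mul] at hc
  have hcP := left_ne_zero_of_mul hc
  have hcQ := right_ne_zero_of_mul hc
  simp only [Q, map_mul, map_prod, map_sub, eval_X] at hcQ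
  have hca := left_ne_zero_of_mul hcQ
  have hcb := right_ne_zero_of_mul hcQ
  rw [Finset.prod_ne_zero_iff] at hca hcb
  have hspec := hP c hcP (m + 2)
  -- the expected value is zero
  have hexp : trunc ((1 + Polynomial.X) ^ n * ∏ j, (1 - Polynomial.X ^ (![1, 1] : Fin 2 → ℕ) j))
      (m + 2) = 0 := by
    unfold trunc
    rw [if_neg]
    intro h
    have h1 := h (m + 2) le_rfl
    rw [coeff_expected] at h1
    have h2 := choose_ineq n m hm
    omega
  rw [hexp] at hspec
  have hz : hilbert (idealOf K c) (m + 2) = 0 := by exact_mod_cast hspec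
  -- a square-free monomial outside the ideal
  let U : Finset (Fin n) := Finset.univ.map (Fin.castLEEmb hle)
  have hU : U.card = 2 * (m + 2) + 1 := by simp [U]
  obtain ⟨S, hSU, hS⟩ := Finset.exists_subset_card_eq (show m + 2 ≤ U.card by omega)
  have hnot : ∏ i ∈ S, X i ∉ idealOf K c := by
    refine Pool.Agent.Y77.SqFree.not_mem (fun i => c (ix n 0 i)) (fun i => c (ix n 1 i)) U S (m + 2)
      (by omega) hU hSU hS (fun i _ => hca i (Finset.mem_univ _)) (fun i _ j _ hij => ?_) _ ?_
    · have h1 := hcb i (Finset.mem_univ _)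
      rw [Finset.prod_ne_zero_iff] at h1
      exact sub_ne_zero.mp (h1 j (Finset.mem_erase.mpr ⟨Ne.symm hij, Finset.mem_univ _⟩))
    · unfold idealOf
      apply Ideal.span_mono
      apply Set.union_subset_union_right
      rintro _ ⟨j, rfl⟩
      rw [form_eq]
      fin_cases j
      · left; rfl
      · right; rfl
  -- the dimension is positive
  have hfg : ((homogeneousSubmodule (Fin n) K (m + 2)).map
      (Ideal.Quotient.mkₐ K (idealOf K c)).toLinearMap).FG :=
    (homogeneousSubmodule_fg (Fin n) K (m + 2)).map _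
  have hfin : Module.Finite K ((homogeneousSubmodule (Fin n) K (m + 2)).map
      (Ideal.Quotient.mkₐ K (idealOf K c)).toLinearMap) := Module.Finite.iff_fg.mpr hfg
  unfold hilbert at hz
  rw [Module.finrank_zero_iff] at hz
  have hhom : (∏ i ∈ S, (X i : MvPolynomial (Fin n) K)).IsHomogeneous (m + 2) := by
    have := IsHomogeneous.prod S (fun i => (X i : MvPolynomial (Fin n) K)) (fun _ => 1)
      (fun i _ => isHomogeneous_X K i)
    simpa [hS] using this
  have hmem : (Ideal.Quotient.mkₐ K (idealOf K c)).toLinearMap (∏ i ∈ S, X i) ∈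
      (homogeneousSubmodule (Fin n) K (m + 2)).map
        (Ideal.Quotient.mkₐ K (idealOf K c)).toLinearMap :=
    Submodule.mem_map_of_mem ((mem_homogeneousSubmodule _ _).mpr hhom)
  have h0 := hz.elim ⟨_, hmem⟩ 0
  have h1 := congrArg Subtype.val h0
  simp only [ZeroMemClass.coe_zero] at h1
  exact hnot (Ideal.Quotient.eq_zero_iff_mem.mp h1)

end Pool.Agent.Results.MP_3acc10_al.LinearForms
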